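import Mathlib
import Pool.Agent.K4H19.DQ.Fin
import Pool.Agent.K4H77.DH

set_option autoImplicit false

/-!
# Golubew's question for randomly displaced primes

Move every prime `p`, independently of the others, to a uniformly distributed random integer of
`[p - w(p), p + w(p)]` and let `S` be the set of the new positions. As soon as `w(n) / log n → ∞`,
almost surely for all large `n` such that the interval `(n ^ 5, (n + 1) ^ 5)` contains at least
`c n ^ 4 / log n` primes (`c > 0` arbitrary), there are `≫ n ^ 4 / (log n) ^ 4` quadruplets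
`(m, m + 2, m + 6, m + 8)` of elements of `S` between `n ^ 5` and `(n + 1) ^ 5`. This holds for a set of
`n` of positive lower density. The same for every pattern and all powers `r ≥ 3`. For displacements
`w(n) ≥ n ^ (1 - δ)` all large `n` are covered.
-/

open MeasureTheory Filter
open scoped Topology

namespace Pool.Agent.Results.MP_c03ca8_nt.DisplacedPrimes

open Pool.Agent.K4H77.Displ (Displaced dset exists_displaced)

/-- The sizes `w m` and `w n` are comparable for `n ≤ m ≤ 4 n`, `n` large. -/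
def Comparable (w : ℕ → ℕ) : Prop := ∃ C : ℝ, 1 ≤ C ∧ ∀ᶠ n : ℕ in atTop, ∀ m : ℕ, n ≤ m → m ≤ 4 * n →
  (w m : ℝ) ≤ C * w n ∧ (w n : ℝ) ≤ C * w m

/-- The number of `m` with `a < m < b` such that `m + h ∈ S` and `m + h < b` for all `h ∈ H`. -/
noncomputable def countBetween (S : Set ℕ) (H : Finset ℕ) (a b : ℕ) : ℕ :=
  Set.ncard {m : ℕ | a < m ∧ m < b ∧ ∀ h ∈ H, m + h < b ∧ m + h ∈ S}

/-- There is a quadruplet of elements of `S` between `n ^ 5` and `(n + 1) ^ 5`. -/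
def Quad (S : Set ℕ) (n : ℕ) : Prop :=
  ∃ m : ℕ, n ^ 5 < m ∧ m + 8 < (n + 1) ^ 5 ∧ m ∈ S ∧ m + 2 ∈ S ∧ m + 6 ∈ S ∧ m + 8 ∈ S

/-- The number of primes between `n ^ r` and `(n + 1) ^ r`. -/
def primesBetween (r n : ℕ) : ℕ := ((Finset.Ioo (n ^ r) ((n + 1) ^ r)).filter Nat.Prime).card

/-- The displaced primes exist (this is not part of `result`). -/
theorem exist (w : ℕ → ℕ) (hw : ∀ n, 4 * w n ≤ n) :
    ∃ (Ω : Type) (_ : MeasurableSpace Ω) (P : Measure Ω) (_ : IsProbabilityMeasure P)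
      (X : ℕ → Ω → ℕ), Displaced w P X := exists_displaced hw

open Classical in
/-- Let `S = dset X ω` be the set of the primes displaced with range `w`, `4 w(n) ≤ n`, `w`
comparable.

(1) Let `w(n) / log n → ∞` and `w(n ^ r) log n / n ^ (r - 1) → 0`, `r ≥ 3`, and let `H` be a pattern of
`k ≥ 1` elements. For every `c > 0` there is `c' > 0` such that almost surely, for all large `n` with at
least `c n ^ (r - 1) / log n` primes between `n ^ r` and `(n + 1) ^ r`, there are at least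
`c' n ^ (r - 1) / (log n) ^ k` translates of `H` in `S` between `n ^ r` and `(n + 1) ^ r`.

(2) For some `c > 0` the set of these `n` has positive lower density.

(3) Hence for `r = 5` almost surely the set of the `n` such that there is a quadruplet of elements of
`S` between `n ^ 5` and `(n + 1) ^ 5` has lower density at least `κ`, `κ > 0` absolute.

(4) There is `δ > 0` such that for `w(n) ≥ n ^ (1 - δ)` the conclusion of (1) holds almost surely for all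
large `n`, and in particular almost surely there is a quadruplet of elements of `S` between `n ^ 5` and
`(n + 1) ^ 5` for all large `n`. -/
theorem result :
    (∀ w : ℕ → ℕ, (∀ n, 4 * w n ≤ n) → Comparable w →
      Tendsto (fun n : ℕ => (w n : ℝ) / Real.log n) atTop atTop →
      ∀ r : ℕ, 3 ≤ r → Tendsto (fun n : ℕ => (w (n ^ r) : ℝ) * Real.log n / (n : ℝ) ^ (r - 1)) atTop (𝓝 0) →
      ∀ H : Finset ℕ, H.Nonempty → ∀ c : ℝ, 0 < c → ∃ c' : ℝ, 0 < c' ∧
      ∀ (Ω : Type) (_ : MeasurableSpace Ω) (P : Measure Ω) (_ : IsProbabilityMeasure P) (X : ℕ → Ω → ℕ),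
        Displaced w P X → ∀ᵐ ω ∂P, ∀ᶠ n : ℕ in atTop,
          c * (n : ℝ) ^ (r - 1) / Real.log n ≤ primesBetween r n →
          c' * (n : ℝ) ^ (r - 1) / Real.log n ^ H.card ≤ countBetween (dset X ω) H (n ^ r) ((n + 1) ^ r)) ∧
    (∀ r : ℕ, 3 ≤ r → ∃ c κ : ℝ, 0 < c ∧ 0 < κ ∧ ∀ᶠ N : ℕ in atTop, κ * N ≤
      (((Finset.Icc 1 N).filter (fun n : ℕ => c * (n : ℝ) ^ (r - 1) / Real.log n ≤ primesBetween r n)).card : ℝ)) ∧
    (∃ κ : ℝ, 0 < κ ∧ ∀ w : ℕ → ℕ, (∀ n, 4 * w n ≤ n) → Comparable w →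
      Tendsto (fun n : ℕ => (w n : ℝ) / Real.log n) atTop atTop →
      Tendsto (fun n : ℕ => (w (n ^ 5) : ℝ) * Real.log n / (n : ℝ) ^ 4) atTop (𝓝 0) →
      ∀ (Ω : Type) (_ : MeasurableSpace Ω) (P : Measure Ω) (_ : IsProbabilityMeasure P) (X : ℕ → Ω → ℕ),
        Displaced w P X → ∀ᵐ ω ∂P, ∀ᶠ N : ℕ in atTop,
          κ * N ≤ (((Finset.Icc 1 N).filter (fun n => Quad (dset X ω) n)).card : ℝ)) ∧
    (∃ δ : ℝ, 0 < δ ∧ ∀ w : ℕ → ℕ, (∀ n, 4 * w n ≤ n) → Comparable w →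
      (∀ᶠ n : ℕ in atTop, (n : ℝ) ^ (1 - δ) ≤ w n) →
      (∀ r : ℕ, 3 ≤ r → ∀ H : Finset ℕ, H.Nonempty → ∃ c' : ℝ, 0 < c' ∧
        ∀ (Ω : Type) (_ : MeasurableSpace Ω) (P : Measure Ω) (_ : IsProbabilityMeasure P) (X : ℕ → Ω → ℕ),
          Displaced w P X → ∀ᵐ ω ∂P, ∀ᶠ n : ℕ in atTop,
            c' * (n : ℝ) ^ (r - 1) / Real.log n ^ H.card ≤ countBetween (dset X ω) H (n ^ r) ((n + 1) ^ r)) ∧
      ∀ (Ω : Type) (_ : MeasurableSpace Ω) (P : Measure Ω) (_ : IsProbabilityMeasure P) (X : ℕ → Ω → ℕ),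
        Displaced w P X → ∀ᵐ ω ∂P, ∀ᶠ n : ℕ in atTop, Quad (dset X ω) n) := by
  have hrr : ∀ r : ℕ, 3 ≤ r → (0 : ℝ) < r := fun r hr => by exact_mod_cast (by omega : 0 < r)
  have hpart1 : ∀ w : ℕ → ℕ, (∀ n, 4 * w n ≤ n) → Comparable w →
      Tendsto (fun n : ℕ => (w n : ℝ) / Real.log n) atTop atTop →
      ∀ r : ℕ, 3 ≤ r → Tendsto (fun n : ℕ => (w (n ^ r) : ℝ) * Real.log n / (n : ℝ) ^ (r - 1)) atTop (𝓝 0) →
      ∀ H : Finset ℕ, H.Nonempty → ∀ c : ℝ, 0 < c → ∃ c' : ℝ, 0 < c' ∧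
      ∀ (Ω : Type) (_ : MeasurableSpace Ω) (P : Measure Ω) (_ : IsProbabilityMeasure P) (X : ℕ → Ω → ℕ),
        Displaced w P X → ∀ᵐ ω ∂P, ∀ᶠ n : ℕ in atTop,
          c * (n : ℝ) ^ (r - 1) / Real.log n ≤ primesBetween r n →
          c' * (n : ℝ) ^ (r - 1) / Real.log n ^ H.card ≤ countBetween (dset X ω) H (n ^ r) ((n + 1) ^ r) := by
    intro w hw ⟨C, hC⟩ h1 r hr h2 H hH c hc
    have hC0 : 0 < C := by linarith [hC.1]
    have hk0 : (0 : ℝ) < H.card := by exact_mod_cast Finset.card_pos.2 hH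
    have hr0 := hrr r hr
    refine ⟨((c / (24 * C ^ 2 * H.card)) ^ H.card / (2 * r) ^ (H.card - 1)) / 2, by positivity, ?_⟩
    intro Ω _ P _ X hX
    exact Pool.Agent.K4H19.DQ.ae_I hw hX hC h1 H hH r hr h2 hc
  have hdens : ∀ r : ℕ, 3 ≤ r → ∃ c κ : ℝ, 0 < c ∧ 0 < κ ∧ ∀ᶠ N : ℕ in atTop, κ * N ≤
      (((Finset.Icc 1 N).filter (fun n : ℕ => c * (n : ℝ) ^ (r - 1) / Real.log n ≤ primesBetween r n)).card : ℝ) := by
    intro r hr
    obtain ⟨c, κ, hc, hκ, h⟩ := Pool.Agent.K4H19.DQ.density r hr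
    refine ⟨c, κ, hc, hκ, ?_⟩
    filter_upwards [h] with N hN
    refine hN.trans (le_of_eq ?_)
    congr 2
  refine ⟨hpart1, hdens, ?_, ?_⟩
  · obtain ⟨c, κ, hc, hκ, h⟩ := hdens 5 (by norm_num)
    refine ⟨κ / 2, by positivity, ?_⟩
    intro w hw hC h1 h2 Ω mΩ P hP X hX
    obtain ⟨c', hc', h3⟩ := hpart1 w hw hC h1 5 (by norm_num) h2 {0, 2, 6, 8} (by simp) c hc
    filter_upwards [h3 Ω mΩ P hP X hX] with ω hω
    refine Pool.Agent.K4H19.DQ.dens_of (G := {n : ℕ | c * (n : ℝ) ^ (5 - 1) / Real.log n ≤ primesBetween 5 n}) hκ h ?_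
    filter_upwards [hω, eventually_ge_atTop 2] with n hn hn2 hG
    exact Pool.Agent.K4H19.DQ.quad_of_le hc' hn2 (hn hG)
  · obtain ⟨δ, η, hδ, hδ1, hη, h⟩ := Pool.Agent.K4H19.DQ.mean_III
    have hpart4 : ∀ w : ℕ → ℕ, (∀ n, 4 * w n ≤ n) → Comparable w →
        (∀ᶠ n : ℕ in atTop, (n : ℝ) ^ (1 - δ) ≤ w n) →
        (∀ r : ℕ, 3 ≤ r → ∀ H : Finset ℕ, H.Nonempty → ∃ c' : ℝ, 0 < c' ∧
        ∀ (Ω : Type) (_ : MeasurableSpace Ω) (P : Measure Ω) (_ : IsProbabilityMeasure P) (X : ℕ → Ω → ℕ),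
          Displaced w P X → ∀ᵐ ω ∂P, ∀ᶠ n : ℕ in atTop,
            c' * (n : ℝ) ^ (r - 1) / Real.log n ^ H.card ≤ countBetween (dset X ω) H (n ^ r) ((n + 1) ^ r)) := by
      intro w hw ⟨C, hC⟩ hbig r hr H hH
      have hC0 : 0 < C := by linarith [hC.1]
      have hk0 : (0 : ℝ) < H.card := by exact_mod_cast Finset.card_pos.2 hH
      have hr0 := hrr r hr
      refine ⟨(η / (24 * C ^ 2 * H.card * r)) ^ H.card / 2, by positivity, ?_⟩
      intro Ω _ P _ X hX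
      have h1 := Pool.Agent.K4H19.DQ.bc_general hw hX H r hr Set.univ (c₁ := (η / (24 * C ^ 2 * H.card * r)) ^ H.card)
        (by positivity) ((h hw hX hC hbig H hH r hr).mono fun n hn _ => hn)
      filter_upwards [h1] with ω hω
      exact hω.mono fun n hn => hn (Set.mem_univ n)
    refine ⟨δ, hδ, fun w hw hC hbig => ⟨hpart4 w hw hC hbig, ?_⟩⟩
    intro Ω mΩ P hP X hX
    obtain ⟨c', hc', h3⟩ := hpart4 w hw hC hbig 5 (by norm_num) {0, 2, 6, 8} (by simp)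
    filter_upwards [h3 Ω mΩ P hP X hX] with ω hω
    filter_upwards [hω, eventually_ge_atTop 2] with n hn hn2
    exact Pool.Agent.K4H19.DQ.quad_of_le hc' hn2 hn

end Pool.Agent.Results.MP_c03ca8_nt.DisplacedPrimes
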