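import Mathlib
import Pool.Agent.K4H19.QU.MaxGap

set_option autoImplicit false

/-!
# The maximal gap between quadruplets, and between tuples of any pattern, in random models

In every sequential (sieved) random model of the primes the longest interval without tuples below
`x` is almost surely asymptotic to `(log x) ^ (k + 1) / 𝔖`, for every admissible pattern of `k`
elements; `𝔖` is the Hardy–Littlewood constant of the pattern restricted to the sieving primes.
For quadruplets the exponent is `5`; Golubew's question asks for gaps below `5 x ^ (4 / 5)`.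
-/

open MeasureTheory Filter Set
open scoped ENNReal Topology

namespace Pool.Agent.Results.MP_c03ca8_nt.MaximalGapLaw

/-- The number of residue classes modulo `p` met by the finite set `H`. -/
def classes (H : Finset ℕ) (p : ℕ) : ℕ := (H.image (· % p)).card

/-- The Hardy–Littlewood constant of the pattern `H`, restricted to the finite set of primes `Q`. -/
noncomputable def hlConst (Q H : Finset ℕ) : ℝ :=
  ∏ p ∈ Q, (1 - (classes H p : ℝ) / p) / (1 - 1 / (p : ℝ)) ^ H.card

/-- A sequential random model of the primes, sieved by the finite set `Q` of primes: the random set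
`{n : ω ∈ A n}` is chosen one integer after the other, `ℱ n` is the information available after
the choice of `n`; multiples of the primes of `Q` are never chosen; and the conditional probability
that `n + 1` is chosen, given `ℱ n`, times `log n`, tends almost surely to
`∏ p ∈ Q, (1 - 1 / p)⁻¹` along the `n` for which `n + 1` has no prime factor in `Q`. No independence
is assumed. -/
structure IsSequentialModel {Ω : Type} {m0 : MeasurableSpace Ω} (μ : Measure Ω) (Q : Finset ℕ)
    (ℱ : Filtration ℕ m0) (A : ℕ → Set Ω) : Prop where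
  adapted : ∀ n, MeasurableSet[ℱ n] (A n)
  sieved : ∀ n, (∃ p ∈ Q, p ∣ n) → A n = ∅
  density : ∀ᵐ ω ∂μ, Tendsto
    (fun n : ℕ => (μ[(A (n + 1)).indicator (fun _ => (1 : ℝ)) | ℱ n]) ω * Real.log n)
    (atTop ⊓ 𝓟 {n : ℕ | ∀ p ∈ Q, ¬ p ∣ n + 1}) (𝓝 (∏ p ∈ Q, (1 - 1 / (p : ℝ))⁻¹))

/-- The lengths `g` such that some window `(y, y + g]` with `y ≤ x` contains no `m` with
`m + h ∈ S` for all `h ∈ H`. -/
def emptyLengths (S : Set ℕ) (H : Finset ℕ) (x : ℕ) : Set ℕ :=
  {g : ℕ | ∃ y ≤ x, ∀ m, y < m → m ≤ y + g → ¬ ∀ h ∈ H, m + h ∈ S}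

/-- The maximal gap: the supremum of `emptyLengths`. -/
noncomputable def maxGap (S : Set ℕ) (H : Finset ℕ) (x : ℕ) : ℕ := sSup (emptyLengths S H x)

open Pool.Agent.K4H19.QU Pool.Agent.R528.RM

section aux

lemma hlConst_eq (Q H : Finset ℕ) : hlConst Q H = singH Q H := rfl

lemma hlConst_pos {Q H : Finset ℕ} (hQ : ∀ p ∈ Q, p.Prime) (h : ∀ p ∈ Q, classes H p < p) :
    0 < hlConst Q H := by
  refine Finset.prod_pos fun p hp => ?_
  have h1 : (1 : ℝ) < p := by exact_mod_cast (hQ p hp).one_lt
  have h2 : (classes H p : ℝ) < p := by exact_mod_cast h p hp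
  apply div_pos
  · rw [sub_pos, div_lt_one (by linarith)]
    exact h2
  · apply pow_pos
    rw [sub_pos, div_lt_one (by linarith)]
    exact h1

lemma quad_adm {p : ℕ} (hp : p.Prime) : classes {0, 2, 6, 8} p < p := by
  unfold classes
  rcases lt_or_ge p 5 with h | h
  · have h2 := hp.two_le
    interval_cases p
    · decide
    · decide
    · exact absurd hp (by decide)
  · calc (Finset.image (· % p) {0, 2, 6, 8}).card ≤ ({0, 2, 6, 8} : Finset ℕ).card := Finset.card_image_le
      _ < p := by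
        have : ({0, 2, 6, 8} : Finset ℕ).card = 4 := by decide
        omega

variable {Ω : Type} {m0 : MeasurableSpace Ω} {μ : Measure Ω} [IsProbabilityMeasure μ]
  {Q : Finset ℕ} {ℱ : Filtration ℕ m0} {A : ℕ → Set Ω}

lemma profile (hQ : ∀ p ∈ Q, p.Prime) (h : IsSequentialModel μ Q ℱ A) :
    ∀ᵐ ω ∂μ, ∀ ε : ℝ, 0 < ε → ∀ᶠ n : ℕ in atTop,
      |dens μ ℱ A n ω - rhoW (∏ p ∈ Q, p) (n + 1)| ≤ ε * rhoW (∏ p ∈ Q, p) (n + 1) := by
  have hW : 0 < ∏ p ∈ Q, p := Finset.prod_pos fun q hq => (hQ q hq).pos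
  have hc : ∀ n, Nat.Coprime n (∏ p ∈ Q, p) ↔ ∀ p ∈ Q, ¬ p ∣ n := by
    intro n
    rw [Nat.coprime_prod_right_iff]
    refine forall₂_congr fun p hp => ?_
    rw [Nat.coprime_comm]
    exact Nat.Prime.coprime_iff_not_dvd (hQ p hp)
  refine dens_profile (μ := μ) h.adapted _ hW (fun n hn => h.sieved n (by
    rw [hc] at hn
    push Not at hn
    exact hn)) ?_
  rw [totient_prod Q hQ]
  simp_rw [hc]
  exact h.density

end aux

/-- **The law of the maximal gap.** Let `Q` be a finite set of primes. In every sequential random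
model sieved by `Q` and for every non-empty finite pattern `H` of `k` elements that misses a residue
class modulo each `p ∈ Q`, almost surely: the windows `(y, y + g]`, `y ≤ x`, without tuples of
pattern `H` have bounded length, the maximal length is asymptotic to `(log x) ^ (k + 1) / 𝔖_Q(H)`,
and for every `δ > 0` and all large `x` a window of length `(1 - δ) (log x) ^ (k + 1) / 𝔖_Q(H)`
without tuples starts in `[x, 2 x]`. The pattern `{0, 2, 6, 8}` is admissible for every `Q`. -/
theorem result (Q : Finset ℕ) (hQ : ∀ p ∈ Q, p.Prime) :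
    (∀ (Ω : Type) (m0 : MeasurableSpace Ω) (μ : Measure Ω) (_ : IsProbabilityMeasure μ)
        (ℱ : Filtration ℕ m0) (A : ℕ → Set Ω), IsSequentialModel μ Q ℱ A →
      ∀ H : Finset ℕ, H.Nonempty → (∀ p ∈ Q, classes H p < p) → ∀ᵐ ω ∂μ,
        (∀ x, BddAbove (emptyLengths {a | ω ∈ A a} H x)) ∧
        Tendsto (fun x : ℕ => (maxGap {a | ω ∈ A a} H x : ℝ) / Real.log x ^ (H.card + 1)) atTop
          (𝓝 (1 / hlConst Q H)) ∧
        ∀ δ : ℝ, 0 < δ → ∀ᶠ x : ℕ in atTop, ∃ y : ℕ, x ≤ y ∧ y ≤ 2 * x ∧ ∀ m : ℕ, y < m →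
          (m : ℝ) ≤ y + (1 - δ) * Real.log x ^ (H.card + 1) / hlConst Q H →
          ¬ ∀ h ∈ H, ω ∈ A (m + h)) ∧
    (∀ p ∈ Q, classes {0, 2, 6, 8} p < p) ∧ 0 < hlConst Q {0, 2, 6, 8} := by
  have hadm : ∀ p ∈ Q, classes {0, 2, 6, 8} p < p := fun p hp => quad_adm (hQ p hp)
  refine ⟨fun Ω m0 μ hμ ℱ A h H hne hH => ?_, hadm, hlConst_pos hQ hadm⟩
  exact gap_law (μ := μ) h.adapted Q hQ (profile hQ h) H hne (hlConst_pos hQ hH)

end Pool.Agent.Results.MP_c03ca8_nt.MaximalGapLaw
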