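import Pool.Agent.K4H50.QM.F12

/-!
# Prime quadruplets with two multipliers and an almost prime

Let `0 < h₁ < h₂` and let `H` be a finite set of further positive shifts such that `{0} ∪ H` is admissible. For a
positive proportion of the pairs of multipliers `(a, b)` of the box `[X^δ, X^(1/2-δ)]²` there are at least
`η X / (a b (log X)^(3 + |H|))` primes `p ≤ X` such that `(p + h₁) / a` and `(p + h₂) / b` are prime and no number `p + h`,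
`h ∈ H`, has a prime factor `≤ X^c`. This is the right order of magnitude. The pattern of the prime quadruplets
`(p, p + 2, p + 6, p + 8)` is the case `h₁ = 2`, `h₂ = 6`, `H = {8}`.
-/

set_option autoImplicit false

namespace Pool.Agent.Results.MP_c03ca8_nt.QuadrupletMultipliers

open Finset Filter

open Classical in
/-- the primes `p ≤ X` such that `(p + h₁) / a` and `(p + h₂) / b` are (integers and) primes and such that all prime
factors of all the numbers `p + h`, `h ∈ H`, are larger than `z` -/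
noncomputable def tuples (h1 h2 : ℕ) (H : Finset ℕ) (z : ℝ) (X a b : ℕ) : Finset ℕ :=
  (Icc 1 X).filter (fun p => p.Prime ∧ a ∣ p + h1 ∧ b ∣ p + h2 ∧ ((p + h1) / a).Prime ∧ ((p + h2) / b).Prime ∧
    ∀ h ∈ H, ∀ l : ℕ, l.Prime → l ∣ p + h → z < l)

open Classical in
/-- the pairs `(a, b)` with `X^δ ≤ a, b ≤ X^(1/2-δ)` for which there are at least `η X / (a b (log X)^(3 + |H|))` such primes,
with `z = X^c` -/
noncomputable def richPairs (h1 h2 : ℕ) (H : Finset ℕ) (δ c η : ℝ) (X : ℕ) : Finset (ℕ × ℕ) :=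
  ((Icc 1 X) ×ˢ (Icc 1 X)).filter (fun x =>
    ((X : ℝ) ^ δ ≤ x.1 ∧ (x.1 : ℝ) ≤ (X : ℝ) ^ (1 / 2 - δ)) ∧ ((X : ℝ) ^ δ ≤ x.2 ∧ (x.2 : ℝ) ≤ (X : ℝ) ^ (1 / 2 - δ)) ∧
    η * (X / (x.1 * x.2 * Real.log X ^ (3 + H.card))) ≤ ((tuples h1 h2 H ((X : ℝ) ^ c) X x.1 x.2).card : ℝ))

theorem general (h1 h2 : ℕ) (H : Finset ℕ) (h0 : 0 < h1) (h12 : h1 < h2) (hH : ∀ h ∈ H, 0 < h ∧ h ≠ h1 ∧ h ≠ h2)
    (adm : ∀ l : ℕ, l.Prime → ∃ w : ℕ, ¬ l ∣ w ∧ ∀ h ∈ H, ¬ l ∣ w + h) :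
    ∃ δ c κ η : ℝ, 0 < δ ∧ δ < 1 / 4 ∧ 0 < c ∧ 0 < κ ∧ 0 < η ∧ ∀ᶠ X : ℕ in atTop,
      κ * Real.log X ^ 2 ≤ ∑ x ∈ richPairs h1 h2 H δ c η X, 1 / ((x.1 : ℝ) * x.2) := by
  classical
  obtain ⟨δ, c, κ, η, a1, a2, a3, a4, a5, hX⟩ := Pool.Agent.K4H50.QM.main h1 h2 h0 h12 H hH adm
  refine ⟨δ, c, κ, η, a1, a2, a3, a4, a5, ?_⟩
  filter_upwards [hX] with X hX
  refine hX.trans (le_of_eq ?_)
  apply sum_congr _ (fun _ _ => rfl)
  ext x
  unfold richPairs Pool.Agent.K4H50.QM.RR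
  rw [mem_filter, mem_filter]
  have e : (Pool.Agent.K4H50.QM.QQ h1 h2 H ((X : ℝ) ^ c) X x.1 x.2).card = (tuples h1 h2 H ((X : ℝ) ^ c) X x.1 x.2).card := by
    unfold Pool.Agent.K4H50.QM.QQ tuples
    rfl
  rw [e, Nat.add_comm H.card 3]
  constructor
  · rintro ⟨b0, b1, b2, b3, b4, b5⟩
    exact ⟨b0, ⟨b1, b2⟩, ⟨b3, b4⟩, b5⟩
  · rintro ⟨b0, ⟨b1, b2⟩, ⟨b3, b4⟩, b5⟩
    exact ⟨b0, b1, b2, b3, b4, b5⟩

/-- **Prime tuples with two multipliers and almost primes**, and the special case of the pattern `0, 2, 6, 8` -/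
theorem result :
    (∀ (h1 h2 : ℕ) (H : Finset ℕ), 0 < h1 → h1 < h2 → (∀ h ∈ H, 0 < h ∧ h ≠ h1 ∧ h ≠ h2) →
      (∀ l : ℕ, l.Prime → ∃ w : ℕ, ¬ l ∣ w ∧ ∀ h ∈ H, ¬ l ∣ w + h) →
      ∃ δ c κ η : ℝ, 0 < δ ∧ δ < 1 / 4 ∧ 0 < c ∧ 0 < κ ∧ 0 < η ∧ ∀ᶠ X : ℕ in atTop,
        κ * Real.log X ^ 2 ≤ ∑ x ∈ richPairs h1 h2 H δ c η X, 1 / ((x.1 : ℝ) * x.2)) ∧
    ∃ δ c κ η : ℝ, 0 < δ ∧ δ < 1 / 4 ∧ 0 < c ∧ 0 < κ ∧ 0 < η ∧ ∀ᶠ X : ℕ in atTop,
      κ * Real.log X ^ 2 ≤ ∑ x ∈ richPairs 2 6 {8} δ c η X, 1 / ((x.1 : ℝ) * x.2) := by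
  refine ⟨fun h1 h2 H h0 h12 hH adm => general h1 h2 H h0 h12 hH adm, general 2 6 {8} (by norm_num) (by norm_num) ?_ ?_⟩
  · intro h hh
    rw [mem_singleton] at hh
    subst hh
    norm_num
  · intro l hl
    by_cases h3 : l = 3
    · subst h3
      refine ⟨2, by norm_num, fun h hh => ?_⟩
      rw [mem_singleton] at hh
      subst hh
      norm_num
    · refine ⟨1, ?_, fun h hh => ?_⟩
      · intro hd
        have := Nat.le_of_dvd one_pos hd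
        have := hl.one_lt
        omega
      · rw [mem_singleton] at hh
        subst hh
        intro hd
        have h9 : l ∣ 3 ^ 2 := by simpa using hd
        have := hl.dvd_of_dvd_pow h9
        rw [Nat.prime_dvd_prime_iff_eq hl Nat.prime_three] at this
        exact h3 this

end Pool.Agent.Results.MP_c03ca8_nt.QuadrupletMultipliers
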