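import Mathlib
import Pool.Agent.K4H19.QU.Pow

set_option autoImplicit false

/-!
# Golubew's question in every sequential (sieved) random model of the primes

Quadruplets between consecutive fifth powers, with the asymptotic count, and more generally
`k`-tuples of any admissible pattern in every window of length `≥ K (log y) ^ (k + 1)`.
-/

open MeasureTheory Filter Set
open scoped ENNReal Topology

namespace Pool.Agent.Results.MP_c03ca8_nt.QuadrupletsSequentialModels

/-- The number of residue classes modulo `p` met by the finite set `H`. -/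
def classes (H : Finset ℕ) (p : ℕ) : ℕ := (H.image (· % p)).card

/-- The Hardy–Littlewood constant of the pattern `H`, restricted to the finite set of primes `Q`. -/
noncomputable def hlConst (Q H : Finset ℕ) : ℝ :=
  ∏ p ∈ Q, (1 - (classes H p : ℝ) / p) / (1 - 1 / (p : ℝ)) ^ H.card

/-- A sequential random model of the primes, sieved by the finite set `Q` of primes: the random set
`{n : ω ∈ A n}` is chosen one integer after the other, `ℱ n` is the information available after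
the choice of `n`; multiples of the primes of `Q` are never chosen; and the conditional probability
that `n + 1` is chosen, given `ℱ n`, times `log n`, tends almost surely to
`∏ p ∈ Q, (1 - 1 / p)⁻¹` along the `n` for which `n + 1` has no prime factor in `Q`. No independence
is assumed. -/
structure IsSequentialModel {Ω : Type} {m0 : MeasurableSpace Ω} (μ : Measure Ω) (Q : Finset ℕ)
    (ℱ : Filtration ℕ m0) (A : ℕ → Set Ω) : Prop where
  adapted : ∀ n, MeasurableSet[ℱ n] (A n)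
  sieved : ∀ n, (∃ p ∈ Q, p ∣ n) → A n = ∅
  density : ∀ᵐ ω ∂μ, Tendsto
    (fun n : ℕ => (μ[(A (n + 1)).indicator (fun _ => (1 : ℝ)) | ℱ n]) ω * Real.log n)
    (atTop ⊓ 𝓟 {n : ℕ | ∀ p ∈ Q, ¬ p ∣ n + 1}) (𝓝 (∏ p ∈ Q, (1 - 1 / (p : ℝ))⁻¹))

/-- The number of `m` with `y < m ≤ y + M` such that `m + h ∈ S` for all `h ∈ H`. -/
noncomputable def countIn (S : Set ℕ) (H : Finset ℕ) (y M : ℕ) : ℕ :=
  Set.ncard {m : ℕ | y < m ∧ m ≤ y + M ∧ ∀ h ∈ H, m + h ∈ S}

/-- The number of `m` with `a < m < b` such that `m + h ∈ S` and `m + h < b` for all `h ∈ H`. -/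
noncomputable def countBetween (S : Set ℕ) (H : Finset ℕ) (a b : ℕ) : ℕ :=
  Set.ncard {m : ℕ | a < m ∧ m < b ∧ ∀ h ∈ H, m + h < b ∧ m + h ∈ S}

open Pool.Agent.K4H19.QU Pool.Agent.R528.RM

section aux

lemma hlConst_eq (Q H : Finset ℕ) : hlConst Q H = singH Q H := rfl

lemma hlConst_pos {Q H : Finset ℕ} (hQ : ∀ p ∈ Q, p.Prime) (h : ∀ p ∈ Q, classes H p < p) :
    0 < hlConst Q H := by
  refine Finset.prod_pos fun p hp => ?_
  have h1 : (1 : ℝ) < p := by exact_mod_cast (hQ p hp).one_lt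
  have h2 : (classes H p : ℝ) < p := by exact_mod_cast h p hp
  apply div_pos
  · rw [sub_pos, div_lt_one (by linarith)]
    exact h2
  · apply pow_pos
    rw [sub_pos, div_lt_one (by linarith)]
    exact h1

lemma quad_adm {p : ℕ} (hp : p.Prime) : classes {0, 2, 6, 8} p < p := by
  unfold classes
  rcases lt_or_ge p 5 with h | h
  · have h2 := hp.two_le
    interval_cases p
    · decide
    · decide
    · exact absurd hp (by decide)
  · calc (Finset.image (· % p) {0, 2, 6, 8}).card ≤ ({0, 2, 6, 8} : Finset ℕ).card := Finset.card_image_le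
      _ < p := by
        have : ({0, 2, 6, 8} : Finset ℕ).card = 4 := by decide
        omega

variable {Ω : Type} {m0 : MeasurableSpace Ω} {μ : Measure Ω} [IsProbabilityMeasure μ]
  {Q : Finset ℕ} {ℱ : Filtration ℕ m0} {A : ℕ → Set Ω}

lemma profile (hQ : ∀ p ∈ Q, p.Prime) (h : IsSequentialModel μ Q ℱ A) :
    ∀ᵐ ω ∂μ, ∀ ε : ℝ, 0 < ε → ∀ᶠ n : ℕ in atTop,
      |dens μ ℱ A n ω - rhoW (∏ p ∈ Q, p) (n + 1)| ≤ ε * rhoW (∏ p ∈ Q, p) (n + 1) := by
  have hW : 0 < ∏ p ∈ Q, p := Finset.prod_pos fun q hq => (hQ q hq).pos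
  have hc : ∀ n, Nat.Coprime n (∏ p ∈ Q, p) ↔ ∀ p ∈ Q, ¬ p ∣ n := by
    intro n
    rw [Nat.coprime_prod_right_iff]
    refine forall₂_congr fun p hp => ?_
    rw [Nat.coprime_comm]
    exact Nat.Prime.coprime_iff_not_dvd (hQ p hp)
  refine dens_profile (μ := μ) h.adapted _ hW (fun n hn => h.sieved n (by
    rw [hc] at hn
    push Not at hn
    exact hn)) ?_
  rw [totient_prod Q hQ]
  simp_rw [hc]
  exact h.density

end aux

/-- **Golubew's question in all sequential random models.** Let `Q` be a finite set of primes and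
`H` a pattern that misses a residue class modulo each `p ∈ Q`. Then
(1) for every `ε > 0` there is `K`, the same for all models sieved by `Q`, such that almost surely,
for all large `y` and all `K (log y) ^ (k + 1) ≤ M ≤ y` (`k` the size of `H`), the number of `m` in
`(y, y + M]` with `m + H` selected is `(𝔖_Q(H) ± ε) M / (log y) ^ k`;
(2) for every `r ≥ 2`, almost surely, the number of selected `m + H` between `n ^ r` and
`(n + 1) ^ r` is asymptotic to `𝔖_Q(H) r n ^ (r - 1) / (r log n) ^ k`;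
(3) for the pattern `{0, 2, 6, 8}` the constant is positive for every `Q`, the number of selected
quadruplets between `n ^ 5` and `(n + 1) ^ 5` is asymptotic to `𝔖_Q n ^ 4 / (125 (log n) ^ 4)`, and
for all large `n` there is a selected quadruplet between `n ^ 5` and `(n + 1) ^ 5`. -/
theorem result (Q : Finset ℕ) (hQ : ∀ p ∈ Q, p.Prime) :
    (∀ H : Finset ℕ, (∀ p ∈ Q, classes H p < p) → ∀ ε : ℝ, 0 < ε → ∃ K : ℝ, 0 < K ∧
      ∀ (Ω : Type) (m0 : MeasurableSpace Ω) (μ : Measure Ω) (_ : IsProbabilityMeasure μ)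
        (ℱ : Filtration ℕ m0) (A : ℕ → Set Ω), IsSequentialModel μ Q ℱ A →
        ∀ᵐ ω ∂μ, ∀ᶠ y : ℕ in atTop, ∀ M : ℕ, K * Real.log y ^ (H.card + 1) ≤ M → M ≤ y →
          |(countIn {a | ω ∈ A a} H y M : ℝ) * Real.log y ^ H.card / M - hlConst Q H| ≤ ε) ∧
    (∀ (Ω : Type) (m0 : MeasurableSpace Ω) (μ : Measure Ω) (_ : IsProbabilityMeasure μ)
        (ℱ : Filtration ℕ m0) (A : ℕ → Set Ω), IsSequentialModel μ Q ℱ A →
      (∀ H : Finset ℕ, (∀ p ∈ Q, classes H p < p) → ∀ r : ℕ, 2 ≤ r → ∀ᵐ ω ∂μ,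
        Tendsto (fun n : ℕ => (countBetween {a | ω ∈ A a} H (n ^ r) ((n + 1) ^ r) : ℝ) *
          (r * Real.log n) ^ H.card / (r * (n : ℝ) ^ (r - 1))) atTop (𝓝 (hlConst Q H))) ∧
      0 < hlConst Q {0, 2, 6, 8} ∧
      ∀ᵐ ω ∂μ,
        Tendsto (fun n : ℕ => (countBetween {a | ω ∈ A a} {0, 2, 6, 8} (n ^ 5) ((n + 1) ^ 5) : ℝ) *
          (125 * Real.log n ^ 4) / (n : ℝ) ^ 4) atTop (𝓝 (hlConst Q {0, 2, 6, 8})) ∧
        ∀ᶠ n : ℕ in atTop, ∃ m : ℕ, n ^ 5 < m ∧ m + 8 < (n + 1) ^ 5 ∧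
          ω ∈ A m ∧ ω ∈ A (m + 2) ∧ ω ∈ A (m + 6) ∧ ω ∈ A (m + 8)) := by
  refine ⟨fun H hH ε hε => ?_, fun Ω m0 μ hμ ℱ A h => ?_⟩
  · refine ⟨max 1 (128 / ((min 1 (ε / 2) / (3 * (H.card + 1) * (singH Q H + 1))) ^ 2 * singH Q H)),
      lt_of_lt_of_le one_pos (le_max_left _ _), fun Ω m0 μ hμ ℱ A h => ?_⟩
    exact as_asymp (μ := μ) h.adapted Q hQ (profile hQ h) H (hlConst_pos hQ hH) hε rfl rfl
  · have hpow : ∀ H : Finset ℕ, (∀ p ∈ Q, classes H p < p) → ∀ r : ℕ, 2 ≤ r → ∀ᵐ ω ∂μ,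
        Tendsto (fun n : ℕ => (countBetween {a | ω ∈ A a} H (n ^ r) ((n + 1) ^ r) : ℝ) *
          (r * Real.log n) ^ H.card / (r * (n : ℝ) ^ (r - 1))) atTop (𝓝 (hlConst Q H)) :=
      fun H hH r hr => as_powers (μ := μ) h.adapted Q hQ (profile hQ h) H (hlConst_pos hQ hH) r hr
    have hadm : ∀ p ∈ Q, classes {0, 2, 6, 8} p < p := fun p hp => quad_adm (hQ p hp)
    have hpos := hlConst_pos hQ hadm
    refine ⟨hpow, hpos, ?_⟩
    filter_upwards [hpow {0, 2, 6, 8} hadm 5 (by norm_num)] with ω hω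
    have hT : Tendsto (fun n : ℕ => (countBetween {a | ω ∈ A a} {0, 2, 6, 8} (n ^ 5) ((n + 1) ^ 5) : ℝ) *
          (125 * Real.log n ^ 4) / (n : ℝ) ^ 4) atTop (𝓝 (hlConst Q {0, 2, 6, 8})) := by
      refine hω.congr fun n => ?_
      have hc : ({0, 2, 6, 8} : Finset ℕ).card = 4 := by decide
      rw [hc]
      push_cast
      rw [show (5 * Real.log (n : ℝ)) ^ 4 = 5 * (125 * Real.log (n : ℝ) ^ 4) by ring]
      rw [mul_left_comm, mul_div_mul_left _ _ (by norm_num : (5 : ℝ) ≠ 0)]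
    refine ⟨hT, ?_⟩
    filter_upwards [hT.eventually (lt_mem_nhds hpos)] with n hn
    by_contra hcon
    push Not at hcon
    have h0 : countBetween {a | ω ∈ A a} {0, 2, 6, 8} (n ^ 5) ((n + 1) ^ 5) = 0 := by
      unfold countBetween
      have he : {m : ℕ | n ^ 5 < m ∧ m < (n + 1) ^ 5 ∧ ∀ h ∈ ({0, 2, 6, 8} : Finset ℕ), m + h < (n + 1) ^ 5 ∧ m + h ∈ {a | ω ∈ A a}} = ∅ := by
        ext m
        simp only [Set.mem_ofPred_eq, Set.mem_empty_iff_false, iff_false]
        rintro ⟨h1, -, h3⟩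
        have g0 := h3 0 (by simp)
        have g2 := h3 2 (by simp)
        have g6 := h3 6 (by simp)
        have g8 := h3 8 (by simp)
        exact hcon m h1 g8.1 g0.2 g2.2 g6.2 g8.2
      rw [he, Set.ncard_empty]
    rw [h0] at hn
    simp at hn

end Pool.Agent.Results.MP_c03ca8_nt.QuadrupletsSequentialModels
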